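import Mathlib
import Pool.Agent.R960.Fam.Idx6

set_option autoImplicit false

/-!
# Splittings `n = k + m` with `p_k + 2` and `p_{p_m} + 2` chosen, in random models of the primes

The integers are decided one after the other; no independence is assumed.  Fix a finite set `Q` of
primes; multiples of the primes of `Q` are never chosen and the other integers `n + 1` are chosen with
conditional probability `(1 + o(1)) ∏_{p ∈ Q} (1 - 1/p)⁻¹ / log n`.  Let `p_m` be the `m`-th chosen integer.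
Almost surely, uniformly in `(log n)⁴ ≤ K ≤ n / 2`, the number of `k ≤ K` such that `p_k + 2` and
`p_{p_{n-k}} + 2` are chosen too is `(𝔖² + o(1)) K / (log K log n)`, where `𝔖 > 0` is the product of the
Hardy and Littlewood factors of the primes of `Q`.  In particular all large `n` are sums `k + m` of the
required kind, even with `k ≤ (log n)⁴ + 1`.
-/

open MeasureTheory Filter
open scoped Topology

namespace Pool.Agent.Results.MP_04e9b2_nt.SplittingsInSievedModels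

/-- the conditional probability that `n + 1` is chosen, given the information up to `n` -/
noncomputable def density {Ω : Type} {mΩ : MeasurableSpace Ω} (μ : Measure Ω) (ℱ : Filtration ℕ mΩ)
    (A : ℕ → Set Ω) (n : ℕ) : Ω → ℝ := μ[(A (n + 1)).indicator (fun _ => (1 : ℝ)) | ℱ n]

/-- the `m`-th element of `S` in increasing order, `m ≥ 1` -/
noncomputable def pr (S : Set ℕ) (m : ℕ) : ℕ := Nat.nth (· ∈ S) (m - 1)

/-- the number of `k` with `1 ≤ k ≤ K` such that `p_k + 2` and `p_{p_{n-k}} + 2` are in `S` -/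
noncomputable def splits (S : Set ℕ) (n K : ℕ) : ℕ :=
  {k : ℕ | (1 ≤ k ∧ k ≤ K) ∧ pr S k + 2 ∈ S ∧ pr S (pr S (n - k)) + 2 ∈ S}.ncard

/-- the Hardy and Littlewood factors of the primes of `Q` for twins -/
noncomputable def twinFactor (Q : Finset ℕ) : ℝ :=
  ∏ p ∈ Q, (1 - (if p = 2 then 1 else 2) / (p : ℝ)) / (1 - 1 / (p : ℝ)) ^ 2

lemma factor_eq (Q : Finset ℕ) (hQ : ∀ p ∈ Q, p.Prime) : Pool.Agent.R528.RM.singH Q {0, 2} = twinFactor Q := by
  unfold Pool.Agent.R528.RM.singH twinFactor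
  refine Finset.prod_congr rfl fun p hp => ?_
  have h1 : Pool.Agent.R528.RM.occ {0, 2} p = if p = 2 then 1 else 2 := by
    unfold Pool.Agent.R528.RM.occ
    rw [Finset.image_insert, Finset.image_singleton, Nat.zero_mod]
    split_ifs with h
    · subst h
      rfl
    · have h2 : 2 % p ≠ 0 := by
        intro h3
        have h4 := Nat.dvd_of_mod_eq_zero h3
        have h5 := Nat.le_of_dvd (by norm_num) h4
        have h6 := (hQ p hp).two_le
        omega
      rw [Finset.card_insert_of_notMem (by simpa using h2.symm), Finset.card_singleton]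
  rw [h1, show ({0, 2} : Finset ℕ).card = 2 from rfl]
  split_ifs <;> norm_num

lemma factor_pos (Q : Finset ℕ) (hQ : ∀ p ∈ Q, p.Prime) : 0 < twinFactor Q := by
  refine Finset.prod_pos fun p hp => ?_
  have h2 : (2 : ℝ) ≤ p := by exact_mod_cast (hQ p hp).two_le
  have hp0 : (0 : ℝ) < p := by linarith
  have h3 : 0 < 1 - 1 / (p : ℝ) := by
    rw [sub_pos, div_lt_one hp0]
    linarith
  refine div_pos ?_ (by positivity)
  split_ifs with h
  · exact h3
  · have h4 : 3 ≤ p := by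
      have h5 := (hQ p hp).two_le
      omega
    have h4' : (3 : ℝ) ≤ p := by exact_mod_cast h4
    rw [sub_pos, div_lt_one hp0]
    linarith

lemma splits_eq (S : Set ℕ) (n K : ℕ) : splits S n K = Pool.Agent.R960.Fam.spl S n K := by
  classical
  unfold splits Pool.Agent.R960.Fam.spl
  have hen : ∀ m, Pool.Agent.R960.Fam.en S (m - 1) = pr S m := fun m => rfl
  have h1 : {k : ℕ | (1 ≤ k ∧ k ≤ K) ∧ pr S k + 2 ∈ S ∧ pr S (pr S (n - k)) + 2 ∈ S} =
      ((((Finset.range K).filter fun i => Pool.Agent.R960.Fam.en S i + 2 ∈ S ∧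
        Pool.Agent.R960.Fam.en S (Pool.Agent.R960.Fam.en S (n - i - 2) - 1) + 2 ∈ S).image fun i => i + 1 : Finset ℕ) : Set ℕ) := by
    ext k
    simp only [Finset.coe_image, Set.mem_image, Finset.mem_coe, Finset.mem_filter, Finset.mem_range, Set.mem_ofPred_eq]
    constructor
    · rintro ⟨⟨h1, h2⟩, h3, h4⟩
      refine ⟨k - 1, ⟨by omega, by rwa [hen], ?_⟩, by omega⟩
      have e : n - (k - 1) - 2 = n - k - 1 := by omega
      rw [e, hen, hen]
      exact h4
    · rintro ⟨i, ⟨h1, h2, h3⟩, rfl⟩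
      refine ⟨⟨by omega, by omega⟩, h2, ?_⟩
      have e : n - i - 2 = n - (i + 1) - 1 := by omega
      rw [e, hen, hen] at h3
      exact h3
  rw [h1, Set.ncard_coe_finset, Finset.card_image_of_injective _ (add_left_injective 1)]

end Pool.Agent.Results.MP_04e9b2_nt.SplittingsInSievedModels

open Pool.Agent.Results.MP_04e9b2_nt.SplittingsInSievedModels

theorem Pool.Agent.Results.MP_04e9b2_nt.SplittingsInSievedModels.result
    {Ω : Type} [mΩ : MeasurableSpace Ω] (μ : Measure Ω) [IsProbabilityMeasure μ]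
    (ℱ : Filtration ℕ mΩ) (A : ℕ → Set Ω) (hA : ∀ n, MeasurableSet[ℱ n] (A n))
    (Q : Finset ℕ) (hQ : ∀ p ∈ Q, p.Prime) (hcop : ∀ n, (∃ p ∈ Q, p ∣ n) → A n = ∅)
    (hd : ∀ᵐ ω ∂μ, Tendsto (fun n : ℕ => density μ ℱ A n ω * Real.log n)
        (atTop ⊓ 𝓟 {n : ℕ | ∀ p ∈ Q, ¬ p ∣ n + 1}) (𝓝 (∏ p ∈ Q, (1 - 1 / (p : ℝ))⁻¹))) :
    0 < twinFactor Q ∧
    ∀ᵐ ω ∂μ, {a | ω ∈ A a}.Infinite ∧
      (∀ ε : ℝ, 0 < ε → ∀ᶠ n : ℕ in atTop, ∀ K : ℕ, 2 * K ≤ n → Real.log n ^ 4 ≤ K →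
        |(splits {a | ω ∈ A a} n K : ℝ) * Real.log K * Real.log n / K - twinFactor Q ^ 2| ≤ ε) ∧
      ∀ᶠ n : ℕ in atTop, ∃ k m : ℕ, n = k + m ∧ 1 ≤ k ∧ 1 ≤ m ∧ (k : ℝ) ≤ Real.log n ^ 4 + 1 ∧
        (ω ∈ A (pr {a | ω ∈ A a} k) ∧ ω ∈ A (pr {a | ω ∈ A a} k + 2)) ∧
        (ω ∈ A (pr {a | ω ∈ A a} (pr {a | ω ∈ A a} m)) ∧ ω ∈ A (pr {a | ω ∈ A a} (pr {a | ω ∈ A a} m) + 2)) := by
  classical
  have hf := factor_pos Q hQ
  refine ⟨hf, ?_⟩
  have hf' : 0 < Pool.Agent.R528.RM.singH Q {0, 2} := by rw [factor_eq Q hQ]; exact hf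
  filter_upwards [Pool.Agent.R960.Fam.split_law (μ := μ) hA Q hQ hcop hd hf'] with ω hω
  obtain ⟨hS, hlaw⟩ := hω
  set S := {a | ω ∈ A a} with hSdef
  have hlaw' : ∀ ε : ℝ, 0 < ε → ∀ᶠ n : ℕ in atTop, ∀ K : ℕ, 2 * K ≤ n → Real.log n ^ 4 ≤ K →
      |(splits S n K : ℝ) * Real.log K * Real.log n / K - twinFactor Q ^ 2| ≤ ε := by
    intro ε hε
    filter_upwards [hlaw ε hε] with n hn K hK1 hK2
    have := hn K hK1 hK2
    rw [factor_eq Q hQ, ← splits_eq] at this
    exact this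
  refine ⟨hS, hlaw', ?_⟩
  have t2 : ∀ᶠ n : ℕ in atTop, 2 * (Real.log n ^ 4 + 1) ≤ n := by
    have h0 : Tendsto (fun x : ℝ => Real.log x ^ (4 : ℝ) / x ^ (1 : ℝ)) atTop (𝓝 0) :=
      (isLittleO_log_rpow_rpow_atTop (4 : ℝ) one_pos).tendsto_div_nhds_zero
    have h1 := h0.comp tendsto_natCast_atTop_atTop
    filter_upwards [h1.eventually_le_const (show (0 : ℝ) < 1 / 4 by norm_num), eventually_ge_atTop 4] with N hN hN4
    have hN0 : (4 : ℝ) ≤ N := by exact_mod_cast hN4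
    simp only [Function.comp_apply, Real.rpow_one] at hN
    rw [div_le_iff₀ (by linarith)] at hN
    have h3 : Real.log (N : ℝ) ^ (4 : ℝ) = Real.log N ^ 4 := by
      rw [← Real.rpow_natCast]
      norm_num
    rw [h3] at hN
    linarith
  filter_upwards [hlaw' (twinFactor Q ^ 2 / 2) (by positivity), t2, eventually_ge_atTop 3] with n h1 h2 hn
  have hn3 : (3 : ℝ) ≤ n := by exact_mod_cast hn
  have hlog : 0 < Real.log (n : ℝ) := Real.log_pos (by linarith)
  set K := ⌈Real.log (n : ℝ) ^ 4⌉₊ with hK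
  have h4 : Real.log (n : ℝ) ^ 4 ≤ K := Nat.le_ceil _
  have h5 : (K : ℝ) < Real.log (n : ℝ) ^ 4 + 1 := Nat.ceil_lt_add_one (by positivity)
  have h6 : 2 * K ≤ n := by
    have : 2 * (K : ℝ) ≤ n := by linarith
    exact_mod_cast this
  have h7 := h1 K h6 h4
  have h8 : splits S n K ≠ 0 := by
    intro h9
    rw [h9] at h7
    simp only [Nat.cast_zero, zero_mul, zero_div, zero_sub, abs_neg] at h7
    rw [abs_of_pos (by positivity)] at h7
    have : 0 < twinFactor Q ^ 2 := by positivity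
    linarith
  have h9 : {k : ℕ | (1 ≤ k ∧ k ≤ K) ∧ pr S k + 2 ∈ S ∧ pr S (pr S (n - k)) + 2 ∈ S}.Nonempty := by
    by_contra hne
    rw [Set.not_nonempty_iff_eq_empty] at hne
    apply h8
    unfold splits
    rw [hne, Set.ncard_empty]
  obtain ⟨k, ⟨hk1, hk2⟩, hk3, hk4⟩ := h9
  refine ⟨k, n - k, by omega, hk1, by omega, ?_, ⟨?_, hk3⟩, ⟨?_, hk4⟩⟩
  · have : (k : ℝ) ≤ K := by exact_mod_cast hk2
    linarith
  · exact Pool.Agent.R960.Fam.en_mem hS (k - 1)
  · exact Pool.Agent.R960.Fam.en_mem hS (pr S (n - k) - 1)
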